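import Pool.Agent.Run7.h787.ST.Iface

set_option autoImplicit false

open NumberField IsDedekindDomain

noncomputable section

namespace Pool.Agent.Run7.h547.ST

open Pool.Agent.Run7.h787.ST

theorem two_le_absNorm {K : Type} [Field K] [NumberField K] (q : HeightOneSpectrum (𝓞 K)) :
    2 ≤ Ideal.absNorm q.asIdeal := by
  have h0 : Ideal.absNorm q.asIdeal ≠ 0 := by
    intro h
    exact q.ne_bot (Ideal.absNorm_eq_zero_iff.1 h)
  have h1 : Ideal.absNorm q.asIdeal ≠ 1 := by
    intro h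
    exact q.isPrime.ne_top (Ideal.absNorm_eq_one_iff.1 h)
  omega

theorem norm_char {G : Type} [Group G] [Finite G] (χ : G →* ℂˣ) (g : G) : ‖(χ g : ℂ)‖ = 1 := by
  have hn : Nat.card G ≠ 0 := Nat.card_pos.ne'
  have h : (χ g : ℂ) ^ Nat.card G = 1 := by
    rw [← Units.val_pow_eq_pow_val, ← map_pow, pow_card_eq_one', map_one, Units.val_one]
  exact Complex.norm_eq_one_of_pow_eq_one h hn

theorem factor_ne_zero {K : Type} [Field K] [NumberField K] (q : HeightOneSpectrum (𝓞 K))
    (c : ℂ) (hc : ‖c‖ = 1) (s : ℂ) (hs : 1 < s.re) :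
    1 - c * (Ideal.absNorm q.asIdeal : ℂ) ^ (-s) ≠ 0 := by
  intro h
  have h2 := two_le_absNorm q
  have e : c * (Ideal.absNorm q.asIdeal : ℂ) ^ (-s) = 1 := (sub_eq_zero.1 h).symm
  have hn : ‖c * (Ideal.absNorm q.asIdeal : ℂ) ^ (-s)‖ < 1 := by
    rw [norm_mul, hc, one_mul, Complex.norm_natCast_cpow_of_pos (by omega)]
    apply Real.rpow_lt_one_of_one_lt_of_neg
    · exact_mod_cast (by omega : 1 < Ideal.absNorm q.asIdeal)
    · rw [Complex.neg_re]
      linarith
  rw [e, norm_one] at hn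
  exact lt_irrefl _ hn

theorem frob_res (hU : S_UNIQ) {K : Type} [Field K] [NumberField K] [Algebra K ℝ]
    (H H' : IntermediateField K ℝ) (hle : H ≤ H') (p : HeightOneSpectrum (𝓞 K)) (r : Gal H' →* Gal H)
    (hr : IsRes r) (g : Gal H) (g' : Gal H') (hun : Unram H p) (hg : IsFrob H p g) (hg' : IsFrob H' p g') :
    r g' = g := by
  apply hU K H p (r g') g hun _ hg
  intro P hP x hx
  have := hg' P hP ⟨(x : ℝ), hle x.2⟩ hx
  rw [← hr g' x ⟨(x : ℝ), hle x.2⟩ rfl] at this
  exact this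

open Classical in
theorem euler_rel (hU : S_UNIQ) (K : Type) [Field K] [NumberField K] [Algebra K ℝ] (H H' : IntermediateField K ℝ)
    (hle : H ≤ H') (S : Finset (HeightOneSpectrum (𝓞 K))) (q : HeightOneSpectrum (𝓞 K)) (hq : q ∉ S)
    (D : LData H S) (D' : LData H' (insert q S)) (r : Gal H' →* Gal H) (hr : IsRes r) (hab : IsAb H)
    (hun : ∀ p, p ∉ S → Unram H p) (χ : Gal H →* ℂˣ) (s : ℂ) (hs : 1 < s.re) :
    D'.L (χ.comp r) s = (1 - (χ (D.frob q) : ℂ) * (Ideal.absNorm q.asIdeal : ℂ) ^ (-s)) * D.L χ s := by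
  have : FiniteDimensional K H := hab.1
  have : Finite (Gal H) := inferInstance
  set f : HeightOneSpectrum (𝓞 K) → ℂ := fun p =>
    (1 - (χ (D.frob p) : ℂ) * (Ideal.absNorm p.asIdeal : ℂ) ^ (-s))⁻¹ with hf
  have h1 : HasProd (f ∘ ((↑) : {p : HeightOneSpectrum (𝓞 K) | p ∉ insert q S} → HeightOneSpectrum (𝓞 K)))
      (D'.L (χ.comp r) s) := by
    have h := D'.euler (χ.comp r) s hs
    have e : (fun p : {p : HeightOneSpectrum (𝓞 K) // p ∉ insert q S} =>
        (1 - ((χ.comp r) (D'.frob p) : ℂ) *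
        (Ideal.absNorm (p : HeightOneSpectrum (𝓞 K)).asIdeal : ℂ) ^ (-s))⁻¹) = fun p => f p.1 := by
      funext x
      obtain ⟨p, hp⟩ := x
      have hpS : p ∉ S := fun h => hp (Finset.mem_insert_of_mem h)
      have := frob_res hU H H' hle p r hr (D.frob p) (D'.frob p) (hun p hpS) (D.isFrob p hpS) (D'.isFrob p hp)
      simp only [MonoidHom.comp_apply, hf, this]
    rw [e] at h
    exact h
  have h2 : HasProd (f ∘ ((↑) : ({q} : Set (HeightOneSpectrum (𝓞 K))) → HeightOneSpectrum (𝓞 K))) (f q) :=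
    hasProd_unique _
  have hd : Disjoint {p : HeightOneSpectrum (𝓞 K) | p ∉ insert q S} ({q} : Set (HeightOneSpectrum (𝓞 K))) := by
    rw [Set.disjoint_singleton_right]
    intro h
    exact h (Finset.mem_insert_self _ _)
  have h3 := h1.mul_disjoint hd h2
  have hset : {p : HeightOneSpectrum (𝓞 K) | p ∉ insert q S} ∪ ({q} : Set (HeightOneSpectrum (𝓞 K))) =
      {p | p ∉ S} := by
    ext p
    simp only [Set.mem_union, Set.mem_ofPred_eq, Finset.mem_insert, not_or, Set.mem_singleton_iff]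
    constructor
    · rintro (⟨-, h⟩ | rfl)
      · exact h
      · exact hq
    · intro h
      by_cases hpq : p = q
      · exact Or.inr hpq
      · exact Or.inl ⟨hpq, h⟩
  rw [hset] at h3
  have h4 : HasProd (f ∘ ((↑) : {p : HeightOneSpectrum (𝓞 K) | p ∉ S} → HeightOneSpectrum (𝓞 K))) (D.L χ s) :=
    D.euler χ s hs
  have h5 : D.L χ s = D'.L (χ.comp r) s * f q := h4.unique h3
  have hne := factor_ne_zero q (χ (D.frob q) : ℂ) (norm_char χ _) s hs
  rw [h5, hf]
  simp only
  field_simp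

open Classical in
theorem t_LREL : S_UNIQ → S_LREL := by
  intro hU K _ _ _ H H' hle S q hq D D' r hr hab hun χ h0
  set F : ℂ → ℂ := D'.L (χ.comp r) with hF
  set c : ℂ := (χ (D.frob q) : ℂ) with hc
  set E : ℂ → ℂ := fun s => 1 - c * (Ideal.absNorm q.asIdeal : ℂ) ^ (-s) with hE
  have hN : (Ideal.absNorm q.asIdeal : ℂ) ≠ 0 := by
    have := two_le_absNorm q
    exact_mod_cast (by omega : Ideal.absNorm q.asIdeal ≠ 0)
  have dE : Differentiable ℂ E := by
    intro s
    refine (differentiableAt_const _).sub ((differentiableAt_const _).mul ?_)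
    exact (differentiableAt_id.neg).const_cpow (Or.inl hN)
  have ho : IsOpen ({1}ᶜ : Set ℂ) := isOpen_compl_singleton
  have aF : AnalyticOnNhd ℂ F {1}ᶜ := (D'.analytic (χ.comp r)).analyticOnNhd ho
  have aG : AnalyticOnNhd ℂ (fun s => E s * D.L χ s) {1}ᶜ :=
    (dE.differentiableOn.mul (D.analytic χ)).analyticOnNhd ho
  have hpre : IsPreconnected ({1}ᶜ : Set ℂ) := by
    apply (isConnected_compl_singleton_of_one_lt_rank _ _).isPreconnected
    rw [Complex.rank_real_complex]
    exact Cardinal.one_lt_two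
  have hev : F =ᶠ[nhds (2 : ℂ)] fun s => E s * D.L χ s := by
    have : {s : ℂ | 1 < s.re} ∈ nhds (2 : ℂ) :=
      (isOpen_lt continuous_const Complex.continuous_re).mem_nhds (by norm_num)
    filter_upwards [this] with s hs
    exact euler_rel hU K H H' hle S q hq D D' r hr hab hun χ s hs
  have heq := aF.eqOn_of_preconnected_of_eventuallyEq aG hpre (by norm_num : (2 : ℂ) ∈ ({1}ᶜ : Set ℂ)) hev
  have h00 : ({1}ᶜ : Set ℂ) ∈ nhds (0 : ℂ) := ho.mem_nhds (by norm_num)
  have hev0 : F =ᶠ[nhds (0 : ℂ)] fun s => E s * D.L χ s := by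
    filter_upwards [h00] with s hs
    exact heq hs
  rw [hev0.deriv_eq]
  have dL : DifferentiableAt ℂ (D.L χ) 0 := (D.analytic χ).differentiableAt h00
  rw [show (fun s => E s * D.L χ s) = E * D.L χ from rfl, deriv_mul (dE 0) dL, h0, mul_zero, zero_add]
  congr 1
  simp [hE]

end Pool.Agent.Run7.h547.ST
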