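import Pool.Agent.Run7.h787.ST.Iface

set_option autoImplicit false

open NumberField IsDedekindDomain

noncomputable section

namespace Pool.Agent.Run7.h547.ST

open Pool.Agent.Run7.h787.ST

theorem t_ARCH : S_ARCH := by
  intro K _ _ _ H L hle hL ε g N hε hN τ hτ
  let _ : Algebra H L := (IntermediateField.inclusion hle).toRingHom.toAlgebra
  let _ : Algebra H ℂ := τ.toAlgebra
  have hLfin : FiniteDimensional K L := hL.1
  have tow : IsScalarTower K H L := IsScalarTower.of_algebraMap_eq' (by
    ext x
    rfl)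
  have halg : Algebra.IsAlgebraic H L := by
    have : FiniteDimensional H L := FiniteDimensional.right K H L
    infer_instance
  let τ' : L →ₐ[H] ℂ := IsAlgClosed.lift
  have hc : ∀ x : H, τ' (algebraMap H L x) = τ x := fun x => τ'.commutes x
  have hK : ∀ x : K, τ' (algebraMap K L x) = τ (algebraMap K H x) := by
    intro x
    rw [← hc]
    rfl
  have hN' : algebraMap H L N = ε * g ε := by
    apply Subtype.ext
    exact hN
  obtain ⟨x, hx⟩ := hτ
  have h1 : ‖τ' ε‖ = 1 := by
    apply hε (τ' : L →+* ℂ)
    refine ⟨x, ?_⟩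
    rw [← hK x] at hx
    exact hx
  have h2 : ‖τ' (g ε)‖ = 1 := by
    have := hε ((τ' : L →+* ℂ).comp ((g : L ≃ₐ[K] L) : L →+* L)) ⟨x, by
      rw [← hK x] at hx
      intro h
      apply hx
      rw [← h]
      simp⟩
    simpa using this
  rw [← hc N, hN', map_mul, norm_mul, h1, h2, one_mul]

end Pool.Agent.Run7.h547.ST
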